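import Pool.Agent.Lib.MP_2c6a5a_lc.NC.Main

namespace Pool.Agent.Results.MP_8a52c3_lc.BennettGill

open MeasureTheory Pool.Agent.Lib.MP_8a52c3_lc.Orc

/-- The class UP relative to `A`: NP with at most one witness. -/
def InUP (A : List Bool → Bool) (L : Set (List Bool)) : Prop :=
  ∃ S, NPRel A S ∧ (∀ x, x ∈ L ↔ ∃ y, S x y) ∧ ∀ x y y', S x y → S x y' → y = y'

/-- Relative to a random oracle, UP ∩ coUP has sets outside P, and no set of NP ∩ coNP is
many-one hard for it. -/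
theorem result :
    ∀ᵐ A ∂(Measure.infinitePi fun _ : List Bool => (PMF.uniformOfFintype Bool).toMeasure),
      ∀ C, InNP A C → InNP A Cᶜ → ∃ L, InUP A L ∧ InUP A Lᶜ ∧ ¬ InP A L ∧
        ¬ ∃ f, FP1 A f ∧ ∀ x, x ∈ L ↔ f x ∈ C :=
  Pool.Agent.Lib.MP_2c6a5a_lc.RO.ae_bg

end Pool.Agent.Results.MP_8a52c3_lc.BennettGill
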