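import Pool.Agent.Lib.MP_8a52c3_lc.CLMain

/-! Optimal worst-case size lower bound for the unary clique formula in semantic cutting planes,
hence in general resolution. -/

theorem Pool.Agent.Results.MP_8a52c3_lc.CliqueCP.result :
    ∃ C : ℕ, ∀ k N : ℕ, C ≤ k → k ^ C ≤ N →
      ∃ G : SimpleGraph (Fin N), G.CliqueFree k ∧
        ∀ (S : ℕ) (L : Fin S → (Fin k × Fin N → ℝ) × ℝ),
          Pool.Agent.Lib.MP_8a52c3_lc.CL.Refutes G k S L → N ^ k ≤ S ^ C := by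
  obtain ⟨C, hC⟩ : ∃ C : ℕ, 10000000000 ≤ C := ⟨_, le_rfl⟩
  exact ⟨C, fun k N hk hN => Pool.Agent.Lib.MP_8a52c3_lc.CL.clique_lower C k N hC hk hN⟩
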