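import Pool.Agent.Lib.MP_8a52c3_lc.H39Fin

/-! Exponential lower bounds for unrestricted depth three and depth four algebraic circuits over
fields of characteristic `p`, and over all commutative rings in which `p` is not invertible. -/

namespace Pool.Agent.Results.MP_8a52c3_lc.DepthFourCharP

/-- Iterated matrix multiplication: the top left entry of the product of `d` generic `n × n`
matrices. -/
noncomputable def IMM (R : Type) [CommRing R] (n d : ℕ) [NeZero n] :
    MvPolynomial (Fin d × Fin n × Fin n) R :=
  (List.ofFn fun k : Fin d => Matrix.of fun i j : Fin n => MvPolynomial.X (k, i, j)).prod 0 0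

/-- If `IMM` is a sum of `s` products of polynomials and `M` contains every monomial of a factor
in which more than `t` variables occur, then `s ≥ n ^ (d / (200 p t))` or `|M| ≥ n ^ (t / 6)`. -/
theorem result (p : ℕ) (hp : p.Prime) (R : Type) [CommRing R] (hR : ¬IsUnit (p : R))
    (n d t s : ℕ) [NeZero n] (ht : 1 ≤ t) (hn : (20 * p * t) ^ 6 ≤ n) (hd : 100 * p * t ≤ d)
    (g : Fin s → List (MvPolynomial (Fin d × Fin n × Fin n) R))
    (M : Finset (Fin d × Fin n × Fin n →₀ ℕ))
    (hM : ∀ i, ∀ q ∈ g i, ∀ m ∈ q.support, t < m.support.card → m ∈ M)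
    (h : ∑ i, (g i).prod = IMM R n d) :
    n ^ d ≤ s ^ (200 * p * t) ∨ n ^ t ≤ M.card ^ 6 :=
  Pool.Agent.Lib.MP_8a52c3_lc.H39.main_ring hp hR ht hn hd g M hM h

end Pool.Agent.Results.MP_8a52c3_lc.DepthFourCharP
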