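import Pool.Agent.Lib.MP_8a52c3_lc.EqLMain

/-!
Superpolynomial lower bound for decision lists of equality tests (in particular, exact linear
decision lists with arbitrary real weights) computing inner product mod 2.
-/

namespace Pool.Agent.Results.MP_8a52c3_lc.ExactDecisionListIP

/-- An equality test on a pair of `n`-bit strings `(x, y)`: it fires when `left x = right y`,
and then the list outputs `out`.  An exact threshold gate `a·x + b·y = c` with real weights is the
case `left x = a·x`, `right y = c - b·y`. -/
structure Test (n : ℕ) where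
  left : (Fin n → Bool) → ℝ
  right : (Fin n → Bool) → ℝ
  out : Bool

open Classical in
/-- Value of the decision list: the output of the first test that fires, else the default `d`. -/
noncomputable def evalList {n : ℕ} : List (Test n) → Bool → (Fin n → Bool) → (Fin n → Bool) → Bool
  | [], d, _, _ => d
  | t :: ts, d, x, y => if t.left x = t.right y then t.out else evalList ts d x y

/-- Inner product mod 2. -/
def ip {n : ℕ} (x y : Fin n → Bool) : Bool :=
  decide (Odd (Finset.univ.filter (fun i => x i = true ∧ y i = true)).card)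

lemma eval_first {n : ℕ} (l : List (Test n)) (d : Bool) (x y : Fin n → Bool) :
    ∀ j, j ≤ l.length → (l[j]?.map (fun t => t.left x)).getD 0 =
        (l[j]?.map (fun t => t.right y)).getD 0 →
      (∀ e < j, (l[e]?.map (fun t => t.left x)).getD 0 ≠ (l[e]?.map (fun t => t.right y)).getD 0) →
      evalList l d x y = (l[j]?.map (fun t => t.out)).getD d := by
  induction l with
  | nil => intro j _ _ _; simp [evalList]
  | cons t ts ih =>
    intro j hj h1 h2
    cases j with
    | zero =>
      have : t.left x = t.right y := by simpa using h1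
      simp [evalList, this]
    | succ j =>
      have h0 : t.left x ≠ t.right y := by simpa using h2 0 (Nat.succ_pos _)
      simp only [evalList, if_neg h0, List.getElem?_cons_succ]
      apply ih j (by simpa using hj) (by simpa using h1)
      intro e he
      simpa using h2 (e + 1) (by omega)

lemma explicit (n s : ℕ) (hs : 1 ≤ s) (hn : 2 ^ (4 * s + 22) ≤ n) (l : List (Test n)) (d : Bool)
    (h : ∀ x y, evalList l d x y = ip x y) : 2 ^ (s ^ 2) ≤ l.length := by
  by_contra hc
  have hc := not_le.1 hc
  have h1 := Pool.Agent.Lib.MP_8a52c3_lc.EqL.ip_bound n l.length s hs hc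
    (fun e x => (l[e]?.map (fun t => t.left x)).getD 0)
    (fun e y => (l[e]?.map (fun t => t.right y)).getD 0)
    (fun e => (l[e]?.map (fun t => t.out)).getD d) (by intro a b; simp)
    (by
      intro x y j hj h1 h2
      rw [← eval_first l d x y j hj h1 h2, h, ip, decide_eq_true_iff])
  have h2 := Pool.Agent.Lib.MP_8a52c3_lc.EqL.arith s
  omega

theorem result : ∃ c : ℝ, 0 < c ∧ ∃ n₀ : ℕ, ∀ n ≥ n₀, ∀ (l : List (Test n)) (d : Bool),
    (∀ x y, evalList l d x y = ip x y) → (n : ℝ) ^ (c * Real.log n) ≤ l.length := by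
  refine ⟨1 / 64, by norm_num, 2 ^ 51, ?_⟩
  intro n hn l d h
  have hn0 : n ≠ 0 := by
    have : 0 < 2 ^ 51 := by norm_num
    omega
  set m := Nat.log 2 n with hm
  have hm51 : 51 ≤ m := Nat.le_log_of_pow_le (by norm_num) hn
  set s := (m - 22) / 4 with hs
  have h1 : 2 ^ (4 * s + 22) ≤ n :=
    (Nat.pow_le_pow_right (by norm_num) (by omega)).trans (Nat.pow_log_le_self 2 hn0)
  have h2 := explicit n s (by omega) h1 l d h
  have h3 : n < 2 ^ (8 * s) :=
    (Nat.lt_pow_succ_log_self (by norm_num) n).trans_le
      (Nat.pow_le_pow_right (by norm_num) (by omega))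
  have hpos : (0 : ℝ) < n := by exact_mod_cast Nat.pos_of_ne_zero hn0
  have hl2 : 0 < Real.log 2 := Real.log_pos (by norm_num)
  have hl21 : Real.log 2 ≤ 1 := by
    have := Real.log_le_sub_one_of_pos (show (0 : ℝ) < 2 by norm_num)
    linarith
  have h4 : Real.log n ≤ 8 * s * Real.log 2 := by
    have h5 : (n : ℝ) ≤ 2 ^ (8 * s) := by exact_mod_cast h3.le
    have h6 := Real.log_le_log hpos h5
    rw [Real.log_pow] at h6
    push_cast at h6
    exact h6
  have h7 : 0 ≤ Real.log n := Real.log_natCast_nonneg n
  have h8 : Real.log n * (1 / 64 * Real.log n) ≤ Real.log 2 * ((s ^ 2 : ℕ) : ℝ) := by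
    push_cast
    have h9 : Real.log n * Real.log n ≤ (8 * s * Real.log 2) * (8 * s * Real.log 2) :=
      mul_le_mul h4 h4 h7 (h7.trans h4)
    have h10 : 0 ≤ (s : ℝ) ^ 2 * Real.log 2 := by positivity
    nlinarith
  calc (n : ℝ) ^ (1 / 64 * Real.log n) = Real.exp (Real.log n * (1 / 64 * Real.log n)) :=
        Real.rpow_def_of_pos hpos _
    _ ≤ Real.exp (Real.log 2 * ((s ^ 2 : ℕ) : ℝ)) := Real.exp_le_exp.2 h8
    _ = (2 : ℝ) ^ (s ^ 2) := by
        rw [← Real.rpow_def_of_pos (by norm_num), Real.rpow_natCast]
    _ ≤ l.length := by exact_mod_cast h2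

end Pool.Agent.Results.MP_8a52c3_lc.ExactDecisionListIP
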