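import Pool.Agent.Lib.MP_8a52c3_lc.PM.Main

namespace Pool.Agent.Results.MP_8a52c3_lc.MatchingPolytopeSDP

/-- The semidefinite extension complexity of the perfect matching polytope of the complete graph
on `2 n` vertices is at least `2 ^ (c n)`: if the polytope is the affine image of a spectrahedron
cut out by an `m × m` linear matrix inequality, then `m ≥ 2 ^ (c n)`. A perfect matching is given
by the map `μ` that sends every vertex to its partner. -/
theorem result : ∃ c : ℝ, 0 < c ∧ ∃ n₀ : ℕ, ∀ n ≥ n₀, ∀ (m : ℕ) (V : Type) [AddCommGroup V]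
    [Module ℝ V] (M : V →ᵃ[ℝ] Matrix (Fin m) (Fin m) ℝ)
    (π : V →ᵃ[ℝ] ({p : Fin (2 * n) × Fin (2 * n) // p.1 < p.2} → ℝ)),
    π '' {w | (M w).PosSemidef} = convexHull ℝ
      {ξ | ∃ μ : Fin (2 * n) → Fin (2 * n), (∀ i, μ (μ i) = i) ∧ (∀ i, μ i ≠ i) ∧
        ξ = fun p : {p : Fin (2 * n) × Fin (2 * n) // p.1 < p.2} =>
          if μ p.1.1 = p.1.2 then (1 : ℝ) else 0} →
    (2 : ℝ) ^ (c * n) ≤ m :=
  Pool.Agent.Lib.MP_8a52c3_lc.PM.pm_sdp

end Pool.Agent.Results.MP_8a52c3_lc.MatchingPolytopeSDP
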