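import Pool.Agent.Lib.MP_8a52c3_lc.Corp.Final

/-! Exponential correlation bound for MOD q against polynomials modulo a prime power coprime to q,
for every degree. A point of the cube is the indicator vector of a set `S`. -/

namespace Pool.Agent.Variants.MP_8a52c3_lc.ModCorrelation

theorem result (m q : ℕ) (hm : IsPrimePow m) (hq : Nat.Coprime m q) :
    ∃ c : ℝ, 0 < c ∧ ∀ ζ : ℂ, ζ ^ q = 1 → ζ ≠ 1 → ∀ n d : ℕ, 1 ≤ d →
      ∀ P : MvPolynomial (Fin n) (ZMod m), P.totalDegree ≤ d →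
        ∀ g : ZMod m → ℂ, (∀ a, ‖g a‖ ≤ 1) →
          ‖∑ S : Finset (Fin n), g (MvPolynomial.eval (fun i => if i ∈ S then 1 else 0) P) *
              ζ ^ S.card‖ / 2 ^ n ≤ 2 * Real.exp (-(c * n / d ^ 2)) := by
  classical
  have hq0 : 0 < q := by
    rcases Nat.eq_zero_or_pos q with rfl | h
    · exact absurd (by simpa using hq) hm.ne_one
    · exact h
  have key : ∀ T : Finset ℂ, ∃ c : ℝ, 0 < c ∧ ∀ ζ ∈ T, ζ ^ q = 1 → ζ ≠ 1 → ∀ n d : ℕ, 1 ≤ d →
      ∀ P : MvPolynomial (Fin n) (ZMod m), P.totalDegree ≤ d →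
        ∀ g : ZMod m → ℂ, (∀ a, ‖g a‖ ≤ 1) →
          ‖∑ S : Finset (Fin n), g (MvPolynomial.eval (fun i => if i ∈ S then 1 else 0) P) *
              ζ ^ S.card‖ / 2 ^ n ≤ 2 * Real.exp (-(c * n / d ^ 2)) := by
    intro T
    induction T using Finset.induction_on with
    | empty => exact ⟨1, one_pos, by simp⟩
    | insert a T _ ih =>
      obtain ⟨c, hc, h⟩ := ih
      by_cases ha : a ^ q = 1 ∧ a ≠ 1
      · obtain ⟨c', hc', h'⟩ :=
          Pool.Agent.Lib.MP_8a52c3_lc.Corp.mod_correlation m q hm hq a ha.1 ha.2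
        refine ⟨min c c', lt_min hc hc', fun ζ hζ h1 h2 n d hd P hP g hg => ?_⟩
        rcases Finset.mem_insert.1 hζ with rfl | hζ
        · refine (h' n d hd P hP g hg).trans ?_
          gcongr
          exact min_le_right _ _
        · refine (h ζ hζ h1 h2 n d hd P hP g hg).trans ?_
          gcongr
          exact min_le_left _ _
      · refine ⟨c, hc, fun ζ hζ h1 h2 => ?_⟩
        rcases Finset.mem_insert.1 hζ with rfl | hζ
        · exact absurd ⟨h1, h2⟩ ha
        · exact h ζ hζ h1 h2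
  obtain ⟨c, hc, h⟩ := key (Polynomial.nthRootsFinset q 1)
  exact ⟨c, hc, fun ζ h1 => h ζ ((Polynomial.mem_nthRootsFinset hq0 1).2 h1) h1⟩

end Pool.Agent.Variants.MP_8a52c3_lc.ModCorrelation
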