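import Pool.Agent.Lib.MP_8a52c3_lc.Cor.Final

/-! Exponential correlation bound for MOD q (q odd) against polynomials over the field with two
elements, for every degree. -/

namespace Pool.Agent.Variants.MP_8a52c3_lc.ModCorrelationF2

theorem result (q : ℕ) (hq : Odd q) :
    ∃ c : ℝ, 0 < c ∧ ∀ ζ : ℂ, ζ ^ q = 1 → ζ ≠ 1 → ∀ n d : ℕ, 1 ≤ d →
      ∀ P : MvPolynomial (Fin n) (ZMod 2), P.totalDegree ≤ d →
        ‖∑ x : Fin n → ZMod 2, (-1 : ℂ) ^ (MvPolynomial.eval x P).val *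
            ζ ^ (Finset.univ.filter (fun i => x i = 1)).card‖ / 2 ^ n
          ≤ 12 * Real.exp (-(c * n / d ^ 2)) := by
  classical
  have hq0 : 0 < q := hq.pos
  have key : ∀ S : Finset ℂ, ∃ c : ℝ, 0 < c ∧ ∀ ζ ∈ S, ζ ^ q = 1 → ζ ≠ 1 → ∀ n d : ℕ, 1 ≤ d →
      ∀ P : MvPolynomial (Fin n) (ZMod 2), P.totalDegree ≤ d →
        ‖∑ x : Fin n → ZMod 2, (-1 : ℂ) ^ (MvPolynomial.eval x P).val *
            ζ ^ (Finset.univ.filter (fun i => x i = 1)).card‖ / 2 ^ n
          ≤ 12 * Real.exp (-(c * n / d ^ 2)) := by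
    intro S
    induction S using Finset.induction_on with
    | empty => exact ⟨1, one_pos, by simp⟩
    | insert a S _ ih =>
      obtain ⟨c, hc, h⟩ := ih
      by_cases ha : a ^ q = 1 ∧ a ≠ 1
      · obtain ⟨c', hc', h'⟩ := Pool.Agent.Lib.MP_8a52c3_lc.Cor.mod_correlation q hq a ha.1 ha.2
        refine ⟨min c c', lt_min hc hc', fun ζ hζ h1 h2 n d hd P hP => ?_⟩
        rcases Finset.mem_insert.1 hζ with rfl | hζ
        · refine (h' n d hd P hP).trans ?_
          gcongr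
          exact min_le_right _ _
        · refine (h ζ hζ h1 h2 n d hd P hP).trans ?_
          gcongr
          exact min_le_left _ _
      · refine ⟨c, hc, fun ζ hζ h1 h2 => ?_⟩
        rcases Finset.mem_insert.1 hζ with rfl | hζ
        · exact absurd ⟨h1, h2⟩ ha
        · exact h ζ hζ h1 h2
  obtain ⟨c, hc, h⟩ := key (Polynomial.nthRootsFinset q 1)
  exact ⟨c, hc, fun ζ h1 => h ζ ((Polynomial.mem_nthRootsFinset hq0 1).2 h1) h1⟩

end Pool.Agent.Variants.MP_8a52c3_lc.ModCorrelationF2
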