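import Pool.Prelude.Def_H_3587d628
import Pool.Agent.Lib.MP_8a52c3_lc.Mono.Core

/-! A monotone language in P whose monotone real circuits have size exponential in the number of
inputs. The function `g v` is the function computed at gate `v`. -/

namespace Pool.Agent.Results.MP_8a52c3_lc.MonotoneCircuit

open Pool.Agent.Lib.MP_8a52c3_lc.Mono

theorem result : ∃ L ∈ N68a2faeb.P,
    (∀ (N : ℕ) (x y : Fin N → Bool), (∀ i, x i = true → y i = true) →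
      L (List.ofFn x) = true → L (List.ofFn y) = true) ∧
    ∃ c : ℝ, 0 < c ∧ ∃ N₀ : ℕ, ∀ N ≥ N₀, ∀ (S : ℕ) (g : Fin S → (Fin N → Bool) → ℝ),
      (∀ v, (∃ a, ∀ x, g v x = a) ∨ (∃ i, ∀ x, g v x = if x i then 1 else 0) ∨
        ∃ u w, u < v ∧ w < v ∧ ∃ φ : ℝ → ℝ → ℝ,
          (∀ a a' b b', a ≤ a' → b ≤ b' → φ a b ≤ φ a' b') ∧ ∀ x, g v x = φ (g u x) (g w x)) →
      (∃ v, ∀ x, g v x = if L (List.ofFn x) then 1 else 0) →
      (2 : ℝ) ^ (c * N) ≤ S := by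
  obtain ⟨M, hM, h⟩ := hard_lower
  have hM8 : 0 < M ^ 8 := by positivity
  have hM8' : (0 : ℝ) < (M : ℝ) ^ 8 := by positivity
  refine ⟨hard M, hard_mem_P M, hard_mono M, 1 / (40 * (M : ℝ) ^ 8), by positivity,
    144 * M ^ 8, fun N hN S g hg hroot => ?_⟩
  set q := Nat.sqrt (N / M ^ 8) with hq
  have h12 : 12 ≤ q := Nat.le_sqrt.2 ((Nat.le_div_iff_mul_le hM8).2 (by omega))
  have key := h N q rfl h12 S g hg hroot
  have h1 : N < (q + 1) ^ 2 * M ^ 8 := (Nat.div_lt_iff_lt_mul hM8).1 (Nat.lt_succ_sqrt' _)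
  have h2 : (q + 1) ^ 2 + 120 ≤ 40 * (4 * q ^ 2 / 20) := by
    have : 20 * (4 * q ^ 2 / 20) + 20 > 4 * q ^ 2 := by omega
    nlinarith
  have h3 : 1 / (40 * (M : ℝ) ^ 8) * N + 2 ≤ ((4 * q ^ 2 / 20 : ℕ) : ℝ) := by
    have h1' : (N : ℝ) ≤ ((q : ℝ) + 1) ^ 2 * (M : ℝ) ^ 8 := by exact_mod_cast h1.le
    have h2' : ((q : ℝ) + 1) ^ 2 + 120 ≤ 40 * ((4 * q ^ 2 / 20 : ℕ) : ℝ) := by exact_mod_cast h2
    have : 1 / (40 * (M : ℝ) ^ 8) * N ≤ ((q : ℝ) + 1) ^ 2 / 40 := by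
      rw [one_div, inv_mul_eq_div, div_le_div_iff₀ (by positivity) (by norm_num)]
      nlinarith
    linarith
  have h4 := Real.rpow_le_rpow_of_exponent_le (x := 2) one_le_two h3
  rw [Real.rpow_natCast, Real.rpow_add two_pos] at h4
  norm_num at h4 ⊢
  linarith

end Pool.Agent.Results.MP_8a52c3_lc.MonotoneCircuit
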