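import Pool.Prelude.Def_H_3587d628
import Pool.Agent.Lib.MP_8a52c3_lc.Mono25.Core
import Pool.Agent.Lib.MP_8a52c3_lc.Mono25.GraphEx
import Pool.Agent.Lib.MP_8a52c3_lc.Mono25.Lang
import Pool.Agent.Lib.MP_8a52c3_lc.Mono25.Params

/-! A lower bound `2 ^ (N / polylog N)` on the size of monotone Boolean circuits for a monotone
language in NP. -/

namespace Pool.Agent.Variants.MP_8a52c3_lc.MonotoneCircuitsNP

open Pool.Agent.Lib.MP_8a52c3_lc.Mono25

/-- `a` may be an input of gate `i`: it is a variable, a constant or an earlier gate. -/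
def Avail {N s : ℕ} (g : Fin s → (Fin N → Bool) → Bool) (i : Fin s)
    (a : (Fin N → Bool) → Bool) : Prop :=
  (∃ t : Fin N, a = fun x => x t) ∨ (∃ b : Bool, a = fun _ => b) ∨ ∃ j : Fin s, j < i ∧ a = g j

/-- `g` lists the functions computed at the gates of a monotone circuit with `s` gates: every gate
is the AND or the OR of two available inputs. -/
def IsMonotoneCircuit {N s : ℕ} (g : Fin s → (Fin N → Bool) → Bool) : Prop :=
  ∀ i, ∃ a b, Avail g i a ∧ Avail g i b ∧
    ((g i = fun x => a x && b x) ∨ (g i = fun x => a x || b x))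

theorem result : ∃ L ∈ N68a2faeb.NP,
    (∀ (N : ℕ) (x y : Fin N → Bool), (∀ i, x i = true → y i = true) →
      L (List.ofFn x) = true → L (List.ofFn y) = true) ∧
    ∃ C N₀ : ℕ, ∀ N ≥ N₀, ∀ (s : ℕ) (g : Fin s → (Fin N → Bool) → Bool),
      IsMonotoneCircuit g → ∀ o : Fin s, (∀ x, g o x = L (List.ofFn x)) →
        2 ^ (N / Nat.log 2 N ^ C) ≤ s := by
  obtain ⟨L, hL, hmono, hred⟩ := lang_exists
  obtain ⟨N0, hpar⟩ := params
  refine ⟨L, hL, hmono, 3000, N0, fun N hN s g hg o ho => ?_⟩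
  obtain ⟨hq, hn, r1, h1, h2, h3, h4, h5⟩ := hpar N hN
  obtain ⟨G, hG⟩ := exists_sparse (nn N) (dd N) _ hn h1
  have H := h5 G hG
  obtain ⟨inp, hi1, hi2⟩ := hred N hq G
  have hun := unsat (S := Fin (qq N)) G (par N r1).p H.p0 H.p1 (dd N) (by simp) (by simpa using hn)
    (by simpa using h4)
  have hw : ∀ i a, Avail g i a →
      Wire (fun j Z => g j (inp Z) = true) i (fun Z => a (inp Z) = true) := by
    rintro i a (⟨t, rfl⟩ | ⟨b, rfl⟩ | ⟨j, hj, rfl⟩)
    · rcases hi1 t with h | h | h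
      · exact Or.inl h
      · exact Or.inr (Or.inl h)
      · exact Or.inr (Or.inr (Or.inl h))
    · cases b
      · exact Or.inr (Or.inr (Or.inl fun _ => by simp))
      · exact Or.inr (Or.inl fun _ => rfl)
    · exact Or.inr (Or.inr (Or.inr ⟨j, hj, fun _ => Iff.rfl⟩))
  have key := core H (N / kk N ^ 3000 + 3) h2 h3 hun s (fun j Z => g j (inp Z) = true) (by
    intro i
    obtain ⟨a, b, ha, hb, h⟩ := hg i
    refine ⟨_, _, hw i a ha, hw i b hb, ?_⟩
    rcases h with h | h
    · exact Or.inl fun Z => by simp [h]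
    · exact Or.inr fun Z => by simp [h]) o (fun Z => by rw [← hi2 Z, ← ho])
  rw [pow_add] at key
  have : 2 ^ (N / kk N ^ 3000) ≤ s := by omega
  exact this

end Pool.Agent.Variants.MP_8a52c3_lc.MonotoneCircuitsNP
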