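import Pool.Prelude.Def_H_3587d628
import Pool.Agent.Lib.MP_8a52c3_lc.LS.MlpMain

/-! A monotone language in P whose monotone linear programming circuits have exponential size. -/

namespace Pool.Agent.Variants.MP_8a52c3_lc.MonotoneLP

open Pool.Agent.Lib.MP_8a52c3_lc.LS

/-- `f w p` is affine in `w` and affine in `p`. -/
def BiAffine {d v : ℕ} (f : (Fin d → ℝ) → (Fin v → ℝ) → ℝ) : Prop :=
  ∃ (a : ℝ) (b : Fin d → ℝ) (c : Fin v → ℝ) (e : Fin d → Fin v → ℝ), ∀ w p,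
    f w p = a + ∑ j, w j * b j + ∑ u, p u * c u + ∑ j, ∑ u, w j * (p u * e j u)

/-- `g x` is the output of a monotone linear program with variables `w`, parameters `p x`,
`s` inequalities `0 ≤ F t w (p x)` and objective `c w (p x)`. -/
def LPGate {X : Type} {v : ℕ} (s : ℕ) (p : X → Fin v → ℝ) (g : X → ℝ) : Prop :=
  ∃ (d : ℕ) (F : Fin s → (Fin d → ℝ) → (Fin v → ℝ) → ℝ) (c : (Fin d → ℝ) → (Fin v → ℝ) → ℝ),
    (∀ t, BiAffine (F t)) ∧ BiAffine c ∧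
    (((∀ w q, (∀ t, 0 ≤ F t w q) → (∀ t, Monotone (F t w)) ∧ Monotone (c w)) ∧
      ((∀ x, IsGreatest {y | ∃ w, (∀ t, 0 ≤ F t w (p x)) ∧ y = c w (p x)} (g x)) ∨
        ∀ x, (g x = 1 ∧ ∃ w, ∀ t, 0 ≤ F t w (p x)) ∨ (g x = 0 ∧ ¬ ∃ w, ∀ t, 0 ≤ F t w (p x)))) ∨
    ((∀ w q, (∀ t, 0 ≤ F t w q) → (∀ t, Antitone (F t w)) ∧ Monotone (c w)) ∧
      ∀ x, IsLeast {y | ∃ w, (∀ t, 0 ≤ F t w (p x)) ∧ y = c w (p x)} (g x)))

theorem result : ∃ L ∈ N68a2faeb.P,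
    (∀ (N : ℕ) (x y : Fin N → Bool), (∀ i, x i = true → y i = true) →
      L (List.ofFn x) = true → L (List.ofFn y) = true) ∧
    ∃ N₀ : ℕ, ∀ N ≥ N₀, ∀ (S : ℕ) (g : ℕ → (Fin N → Bool) → ℝ) (s : ℕ → ℕ),
      (∀ v < S, (∃ a, ∀ x, g v x = a) ∨ (∃ i, ∀ x, g v x = if x i then 1 else 0) ∨
        (∃ u < v, ∃ w < v, ∃ φ : ℝ → ℝ → ℝ, (∀ a a' b b', a ≤ a' → b ≤ b' → φ a b ≤ φ a' b') ∧
          ∀ x, g v x = φ (g u x) (g w x)) ∨
        LPGate (s v) (fun x (u : Fin v) => g u x) (g v)) →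
      (∃ v < S, ∀ x y, L (List.ofFn x) = true → L (List.ofFn y) = false → g v y < g v x) →
      (2 : ℝ) ^ ((N : ℝ) ^ (1 / 66 : ℝ)) ≤ (∑ v ∈ Finset.range S, (1 + s v) : ℕ) := by
  obtain ⟨N₀, h⟩ := mlp_env
  refine ⟨hardV, hardV_mem_P, hardV_mono, N₀, fun N hN S g s hg ⟨v, hv, hr⟩ => ?_⟩
  obtain ⟨n, r, Q, _, _, _, _, D, k, Λ, κ, ν, σ, U, W, h1, -, h3, h4, h5⟩ := h N hN
  refine h5 _ (h1.circ (fun u hu => (hg u hu).imp_right (Or.imp_right (Or.imp_right ?_))) hv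
    fun α y => hr _ _ (h3 α) (h4 y))
  rintro ⟨d, F, c, hF, ⟨a', b', c', e', hc⟩, hh⟩
  choose a b c₀ e hF using hF
  obtain ⟨F', h6⟩ := bi_aff a (fun j t => b t j) (fun u t => c₀ t u) fun j u t => e t j u
  obtain ⟨c'', h7⟩ := bi_aff a' b' c' e'
  obtain rfl : F = fun t w q => F' w q t := by
    funext t w q
    simp [hF, h6, Finset.sum_apply]
  obtain rfl : c = fun w q => c'' w q := by
    funext w q
    simp [hc, h7]
  exact ⟨d, F', c'', hh.imp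
    (And.imp_left fun k w q z => ⟨fun _ _ l t => (k w q z).1 t l, (k w q z).2⟩)
    (And.imp_left fun k w q z => ⟨fun _ _ l t => (k w q z).1 t l, (k w q z).2⟩)⟩

end Pool.Agent.Variants.MP_8a52c3_lc.MonotoneLP
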