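import Pool.Prelude.Def_H_3587d628
import Pool.Agent.Lib.MP_8a52c3_lc.NbtHard

/-! An exponential size lower bound for nondeterministic Boolean branching programs that work in
linear time `k N` along some accepting computation of every accepted input (tests of an
exceptional set of `ε N` variables, which may depend on the input, are not counted). The bound is
on the number of nodes entered by a labelled edge, which is at most the number of nodes and at most
the number of labelled edges. -/

namespace Pool.Agent.Results.MP_8a52c3_lc.NondetBranching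

open Pool.Agent.Lib.MP_8a52c3_lc

/-- `Walk E u w l`: there is a directed walk from `u` to `w` in the edge set `E`, and `l` is the
list of the tests `(i, b)`, meaning `x i = b`, on its labelled edges, in order. An edge with label
`none` is unlabelled. -/
inductive Walk {V ι : Type} (E : Finset (V × V × Option (ι × Bool))) :
    V → V → List (ι × Bool) → Prop
  | nil (u : V) : Walk E u u []
  | free (u v w : V) (l : List (ι × Bool)) :
      (u, v, none) ∈ E → Walk E v w l → Walk E u w l
  | test (u v w : V) (a : ι × Bool) (l : List (ι × Bool)) :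
      (u, v, some a) ∈ E → Walk E v w l → Walk E u w (a :: l)

theorem Walk.append {V ι : Type} {E : Finset (V × V × Option (ι × Bool))} {u v w : V}
    {l1 l2 : List (ι × Bool)} (h1 : Walk E u v l1) (h2 : Walk E v w l2) :
    Walk E u w (l1 ++ l2) := by
  induction h1 with
  | nil u => exact h2
  | free u v' w' l he _ ih => exact Walk.free _ _ _ _ he (ih h2)
  | test u v' w' a l he _ ih => exact Walk.test _ _ _ _ _ he (ih h2)

theorem Walk.cut {V ι : Type} {E : Finset (V × V × Option (ι × Bool))} {u w : V}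
    {l : List (ι × Bool)} (h : Walk E u w l) : ∀ l1 l2, l = l1 ++ l2 → l1 ≠ [] →
      ∃ v, (∃ u' a, (u', v, some a) ∈ E) ∧ Walk E u v l1 ∧ Walk E v w l2 := by
  induction h with
  | nil u =>
    intro l1 l2 h1 h2
    exact absurd (List.append_eq_nil_iff.1 h1.symm).1 h2
  | free u v w l he _ ih =>
    intro l1 l2 h1 h2
    obtain ⟨v', a, b, c⟩ := ih l1 l2 h1 h2
    exact ⟨v', a, Walk.free _ _ _ _ he b, c⟩
  | test u v w a l he hw ih =>
    intro l1 l2 h1 h2
    obtain ⟨a', l1', rfl⟩ := List.exists_cons_of_ne_nil h2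
    simp only [List.cons_append, List.cons.injEq] at h1
    obtain ⟨rfl, rfl⟩ := h1
    by_cases h3 : l1' = []
    · subst h3
      exact ⟨v, ⟨u, a, he⟩, Walk.test _ _ _ _ _ he (Walk.nil v), hw⟩
    · obtain ⟨v', p, b, c⟩ := ih l1' l2 rfl h3
      exact ⟨v', p, Walk.test _ _ _ _ _ he b, c⟩

theorem result : ∃ L ∈ N68a2faeb.P, ∀ k : ℕ, ∃ ε : ℝ, 0 < ε ∧ ∃ c : ℝ, 0 < c ∧ ∃ N₀ : ℕ, ∀ N ≥ N₀,
    ∀ (S : ℕ) (E : Finset (Fin S × Fin S × Option (Fin N × Bool))) (s t : Fin S),
      (∀ x : Fin N → Bool,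
        L (List.ofFn x) = true ↔ ∃ l, Walk E s t l ∧ ∀ a ∈ l, x a.1 = a.2) →
      (∀ x : Fin N → Bool, L (List.ofFn x) = true →
        ∃ l, Walk E s t l ∧ (∀ a ∈ l, x a.1 = a.2) ∧
          ∃ X : Finset (Fin N), (X.card : ℝ) ≤ ε * N ∧
            (l.filter fun a => decide (a.1 ∉ X)).length ≤ k * N) →
      (2 : ℝ) ^ (c * (N : ℝ) ^ (1 / 4 : ℝ)) ≤
        ((E.filter fun e => e.2.2 ≠ none).image fun e => e.2.1).card := by
  refine ⟨hardL, hardL_mem_P, fun k => ?_⟩
  obtain ⟨ε, hε, c, hc, N₀, h⟩ := hard_lower_time k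
  refine ⟨ε, hε, c, hc, N₀, fun N hN S E s t h1 h2 => ?_⟩
  have key := h N hN (Fin S) (Walk E) Walk.nil (fun _ _ _ _ _ => Walk.append)
    ((E.filter fun e => e.2.2 ≠ none).image fun e => e.2.1) (by
      intro u w l1 l2 h hne
      obtain ⟨v, ⟨u', a, he⟩, b, c⟩ := h.cut l1 l2 rfl hne
      exact ⟨v, Finset.mem_image.2 ⟨(u', v, some a), Finset.mem_filter.2 ⟨he, by simp⟩, rfl⟩,
        b, c⟩) s t (fun x l a b => (h1 x).2 ⟨l, a, b⟩) h2
  exact key

end Pool.Agent.Results.MP_8a52c3_lc.NondetBranching
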