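import Pool.Agent.Lib.MP_8a52c3_lc.PermDet.Main3

/-! Lower bound `n ^ (3 - ε)` for the border determinantal complexity of the permanent. -/

namespace Pool.Agent.Results.MP_8a52c3_lc.PermDetComplexity

/-- If the `n × n` permanent is a coefficientwise limit of determinants of `m × m` matrices with
affine linear entries over `ℂ`, then `m ≥ n ^ (3 - ε)` for all large `n`. -/
theorem result : ∀ ε : ℝ, 0 < ε → ∃ n₀ : ℕ, ∀ n : ℕ, n₀ ≤ n → ∀ (m : ℕ)
    (M : ℕ → Matrix (Fin m) (Fin m) (MvPolynomial (Fin n × Fin n) ℂ)),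
    (∀ j a b, (M j a b).totalDegree ≤ 1) →
    (∀ α : Fin n × Fin n →₀ ℕ,
      Filter.Tendsto (fun j => MvPolynomial.coeff α (M j).det) Filter.atTop
        (nhds (MvPolynomial.coeff α
          (Matrix.of fun i k : Fin n =>
            (MvPolynomial.X (i, k) : MvPolynomial (Fin n × Fin n) ℂ)).permanent))) →
    (n : ℝ) ^ (3 - ε) ≤ m :=
  Pool.Agent.Lib.MP_8a52c3_lc.PermDet.border_cubic

end Pool.Agent.Results.MP_8a52c3_lc.PermDetComplexity
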