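import Pool.Agent.Lib.MP_8a52c3_lc.RLMain

namespace Pool.Agent.Results.MP_8a52c3_lc.ResParity

open Pool.Agent.Lib.MP_8a52c3_lc.RL

/-- Exponential lower bound for dag-like resolution over polynomial equations of degree at most
`k` over a finite field, on random CNF formulas. -/
theorem result (K : Type) [Field K] [Fintype K] (k c g ρ n m : ℕ) (hc : 3 ≤ c)
    (hg : c ≤ g * (c - k * (Fintype.card K - 1))) (hn : 0 < n) (h1 : 2 ^ c * n ≤ m)
    (h2 : m ≤ ρ ^ c * n) :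
    (({φ : CNF n m c | ¬ ((∀ x, ∃ a, ¬ SatC (φ a) x) ∧
      ∀ (S : ℕ) (L : Fin S → Finset (MvPolynomial (Fin n) K)), Refutes φ k S L →
        (2 : ℝ) ^ ((n : ℝ) / (ρ : ℝ) ^ (200 * c * g)) ≤ (S : ℝ))}).ncard : ℝ) ≤
      (ρ : ℝ) ^ 20 / √(n : ℝ) * (2 * (n : ℝ)) ^ (c * m) :=
  ncard_le_of_pr hn (main hc hg hn h1 h2)

end Pool.Agent.Results.MP_8a52c3_lc.ResParity
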