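import Pool.Agent.Lib.MP_8a52c3_lc.H91SF
import Pool.Agent.Lib.MP_8a52c3_lc.H39XorC

namespace Pool.Agent.Results.MP_8a52c3_lc.SdpCutAndSat

/-- (1) The semidefinite extension complexity of the cut polytope of the complete graph on `n`
vertices is at least `2 ^ (c n)`. (2) Every semidefinite relaxation of Max-3SAT on `n` variables
that certifies value at most `1 - ε` for all instances of value at most `7/8 + ε` has size at
least `2 ^ (c n)`. -/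
theorem result :
    (∃ c : ℝ, 0 < c ∧ ∃ n₀ : ℕ, ∀ n ≥ n₀, ∀ (m : ℕ) (V : Type) [AddCommGroup V]
      [Module ℝ V] (M : V →ᵃ[ℝ] Matrix (Fin m) (Fin m) ℝ)
      (π : V →ᵃ[ℝ] ({p : Fin n × Fin n // p.1 < p.2} → ℝ)),
      π '' {w | (M w).PosSemidef} = convexHull ℝ (Set.range fun (S : Finset (Fin n))
        (p : {p : Fin n × Fin n // p.1 < p.2}) =>
          if (p.1.1 ∈ S ↔ p.1.2 ∈ S) then (0 : ℝ) else 1) →
      (2 : ℝ) ^ (c * n) ≤ m) ∧
    ∀ ε : ℝ, 0 < ε → ∃ c : ℝ, 0 < c ∧ ∃ n₀ : ℕ, ∀ n ≥ n₀, ∀ (m : ℕ) (V : Type) [AddCommGroup V]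
      [Module ℝ V] (M : V →ᵃ[ℝ] Matrix (Fin m) (Fin m) ℝ) (p : (Fin n → Bool) → V),
      (∀ x, (M (p x)).PosSemidef) →
      (∀ (k : ℕ) (v : Fin k → Fin 3 → Fin n) (s : Fin k → Fin 3 → Bool),
        (∀ j, Function.Injective (v j)) →
        (∀ x : Fin n → Bool,
          ((Finset.univ.filter fun j => ∃ i, x (v j i) = s j i).card : ℝ) ≤ (7 / 8 + ε) * k) →
        ∃ f : V →ᵃ[ℝ] ℝ,
          (∀ x, f (p x) = (Finset.univ.filter fun j => ∃ i, x (v j i) = s j i).card) ∧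
          ∀ w, (M w).PosSemidef → f w ≤ (1 - ε) * k) →
      (2 : ℝ) ^ (c * n) ≤ m :=
  ⟨Pool.Agent.Lib.MP_8a52c3_lc.H91S.cut_sdp, fun _ hε => Pool.Agent.Lib.MP_8a52c3_lc.H39Xor.sat3 hε⟩

end Pool.Agent.Results.MP_8a52c3_lc.SdpCutAndSat
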