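import Pool.Prelude.Def_H_3587d628
import Pool.Agent.Lib.MP_8a52c3_lc.Avg.Main

/-! A monotone language in NP that circuits of size `2 ^ s` with `t` negation gates compute on at
most a fraction `1 / 2 + O (2 ^ t (s + log N) ^ 5 / √N)` of all inputs of length `N`. The function
`g v` is the function computed at gate `v`, and every negation gate lies in `T`. -/

namespace Pool.Agent.Results.MP_8a52c3_lc.UniformCorrelation

open Pool.Agent.Lib.MP_8a52c3_lc.Avg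

theorem result (s : ℕ → ℕ) (hs : N68a2faeb.IsPolyTime fun w : List Bool => s w.length) :
    ∃ L ∈ N68a2faeb.NP,
    (∀ (N : ℕ) (x y : Fin N → Bool), (∀ i, x i = true → y i = true) →
      L (List.ofFn x) = true → L (List.ofFn y) = true) ∧
    ∀ N ≥ 1, ∀ S ≤ 2 ^ s N, ∀ (T : Finset (Fin S)) (g : Fin S → (Fin N → Bool) → ℝ),
      (∀ v, ((∃ a, ∀ x, g v x = a) ∨ (∃ i, ∀ x, g v x = if x i then 1 else 0) ∨
        ∃ u w, u < v ∧ w < v ∧ ∃ φ : ℝ → ℝ → ℝ,
          (∀ a a' b b', a ≤ a' → b ≤ b' → φ a b ≤ φ a' b') ∧ ∀ x, g v x = φ (g u x) (g w x)) ∨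
        (v ∈ T ∧ ∃ u, u < v ∧ ∀ x, g v x = if g u x ≤ 0 then 1 else 0)) →
      ∀ v, (Set.ncard {x | 0 < g v x ↔ L (List.ofFn x) = true} : ℝ) / 2 ^ N ≤
        1 / 2 + 10 ^ 5 * 2 ^ T.card * ((s N + Nat.log 2 N + 1 : ℕ) : ℝ) ^ 5 / √N :=
  avg_bound s hs

end Pool.Agent.Results.MP_8a52c3_lc.UniformCorrelation
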